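import Mathlib
import Pool.Agent.T6.H18.Quat

/-!
# MP_64d585_al, Q2: invariant maximal semidefinite extensions with a prescribed spectrum

Let `φ` be a nonstandard involution of `ℍ`, `φ β = -β`, `|β| = 1`, let `H` be an invertible
`φ`-hermitian matrix, `A` an `(H, φ)`-skewsymmetric matrix and `N` an `A`-invariant
`(HA, φ)`-neutral subspace. For every c-set `S` of `A` which contains all eigenvalues of `A|N` with
nonzero real part there are `A`-invariant subspaces `L₊, L₋ ⊇ N`, maximal `(HA, φ)`-nonnegative and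
maximal `(HA, φ)`-nonpositive, for which the eigenvalues of `A|L` with nonzero real part are exactly
the elements of `S`. Nothing is assumed on the invertibility of `A`.

Proof. `β⁻¹ y_φ (HA) x` is a hermitian form for which `A` is skew-adjoint. Let `R` be the sum of the
root subspaces of `A` for the eigenvalues in `S`. Root subspaces of `a` and of an invariant subspace
without eigenvalues similar to `-a` are orthogonal; so `N + R` is neutral and extends to an invariant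
maximal nonnegative subspace `L`. An eigenvector `x ∈ L` of an eigenvalue `a ∉ S`, `Re a ≠ 0`, is
neutral, and `-a ∈ S` since `S` is maximal. By the Cauchy-Schwarz inequality `x` is orthogonal to
`L`, which contains the root subspace of `-a`; it is orthogonal to the complementary root subspaces
as well, so `x` is in the kernel of `HA`, which is the kernel of `A`. But `A x = x a ≠ 0`.
-/

set_option autoImplicit false

namespace Pool.Agent.Results.MP_64d585_al.PrescribedSpectrum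

open Quaternion MulOpposite Matrix Pool.Agent.R713 Pool.Agent.T6.H18

/-- `φ` is a nonstandard involution of `ℍ`. -/
structure NonstandardInvolution (φ : ℍ[ℝ] →ₗ[ℝ] ℍ[ℝ]) : Prop where
  mul : ∀ x y, φ (x * y) = φ y * φ x
  invol : ∀ x, φ (φ x) = x
  ne_star : ∃ x, φ x ≠ star x

/-- The right quaternionic subspaces of `ℍ^n`. -/
abbrev Sub (n : ℕ) : Type := Submodule ℍ[ℝ]ᵐᵒᵖ (Fin n → ℍ[ℝ])

/-- `X_φ`: the transpose of `X` with `φ` applied to every entry. -/
noncomputable def phiT {n : ℕ} (φ : ℍ[ℝ] →ₗ[ℝ] ℍ[ℝ]) (X : Matrix (Fin n) (Fin n) ℍ[ℝ]) :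
    Matrix (Fin n) (Fin n) ℍ[ℝ] := Matrix.of fun i j => φ (X j i)

/-- `x_φ G y` -/
noncomputable def pair {n : ℕ} (φ : ℍ[ℝ] →ₗ[ℝ] ℍ[ℝ]) (G : Matrix (Fin n) (Fin n) ℍ[ℝ])
    (x y : Fin n → ℍ[ℝ]) : ℍ[ℝ] := (fun i => φ (x i)) ⬝ᵥ (G *ᵥ y)

/-- `M` is `A`-invariant. -/
def Invariant {n : ℕ} (A : Matrix (Fin n) (Fin n) ℍ[ℝ]) (M : Sub n) : Prop :=
  ∀ x ∈ M, A *ᵥ x ∈ M

/-- `M` is `(G, φ)`-neutral: `y_φ G x = 0` for all `x, y ∈ M`. -/
def Neutral {n : ℕ} (φ : ℍ[ℝ] →ₗ[ℝ] ℍ[ℝ]) (G : Matrix (Fin n) (Fin n) ℍ[ℝ])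
    (M : Sub n) : Prop :=
  ∀ x ∈ M, ∀ y ∈ M, pair φ G y x = 0

/-- `M` is `(G, φ)`-nonnegative: `β⁻¹ x_φ G x` is a nonnegative real number for all `x ∈ M`. -/
def Nonneg {n : ℕ} (φ : ℍ[ℝ] →ₗ[ℝ] ℍ[ℝ]) (β : ℍ[ℝ]) (G : Matrix (Fin n) (Fin n) ℍ[ℝ])
    (M : Sub n) : Prop :=
  ∀ x ∈ M, ∃ r : ℝ, 0 ≤ r ∧ β⁻¹ * pair φ G x x = (r : ℍ[ℝ])

/-- `M` is `(G, φ)`-nonpositive: `β⁻¹ x_φ G x` is a nonpositive real number for all `x ∈ M`. -/
def Nonpos {n : ℕ} (φ : ℍ[ℝ] →ₗ[ℝ] ℍ[ℝ]) (β : ℍ[ℝ]) (G : Matrix (Fin n) (Fin n) ℍ[ℝ])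
    (M : Sub n) : Prop :=
  ∀ x ∈ M, ∃ r : ℝ, r ≤ 0 ∧ β⁻¹ * pair φ G x x = (r : ℍ[ℝ])

/-- `M` has the property `P` and is not properly contained in another subspace with it. -/
def Maximal {n : ℕ} (P : Sub n → Prop) (M : Sub n) : Prop :=
  P M ∧ ∀ M' : Sub n, M ≤ M' → P M' → M' = M

/-- The eigenvalues of `A` with an eigenvector in `M`: the `c` with `A x = x c` for some nonzero
`x ∈ M`. For an `A`-invariant `M` these are the eigenvalues of the restriction of `A` to `M`. -/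
def eigenvalues {n : ℕ} (A : Matrix (Fin n) (Fin n) ℍ[ℝ]) (M : Sub n) : Set ℍ[ℝ] :=
  {c | ∃ x ∈ M, x ≠ 0 ∧ A *ᵥ x = fun i => x i * c}

/-- The first three properties of a c-set of `A`: the elements of `S` are eigenvalues of `A` with
nonzero real part, `S` is closed under similarity, and `c ∈ S` implies `-c ∉ S`. -/
def PreCSet {n : ℕ} (A : Matrix (Fin n) (Fin n) ℍ[ℝ]) (S : Set ℍ[ℝ]) : Prop :=
  (∀ c ∈ S, c ∈ eigenvalues A ⊤ ∧ c.re ≠ 0) ∧ (∀ c ∈ S, ∀ q : ℍ[ℝ], q ≠ 0 → q⁻¹ * c * q ∈ S) ∧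
    ∀ c ∈ S, -c ∉ S

/-- `S` is a c-set of `A`: it has these three properties and is maximal with them. -/
def IsCSet {n : ℕ} (A : Matrix (Fin n) (Fin n) ℍ[ℝ]) (S : Set ℍ[ℝ]) : Prop :=
  PreCSet A S ∧ ∀ T, PreCSet A T → S ⊆ T → T = S

section involution

variable {φ : ℍ[ℝ] →ₗ[ℝ] ℍ[ℝ]}

theorem phi_one (h : NonstandardInvolution φ) : φ 1 = 1 := by
  have h1 : φ 1 * φ 1 = φ 1 * 1 := by rw [← h.mul, mul_one, mul_one]
  have h0 : φ 1 ≠ 0 := by
    intro h0
    have := h.invol 1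
    rw [h0, map_zero] at this
    exact zero_ne_one this
  exact mul_left_cancel₀ h0 h1

theorem phi_coe (h : NonstandardInvolution φ) (r : ℝ) : φ (r : ℍ[ℝ]) = r := by
  have : (r : ℍ[ℝ]) = r • (1 : ℍ[ℝ]) := by ext <;> simp
  rw [this, map_smul, phi_one h]

theorem sq_eq (x : ℍ[ℝ]) : x * x = ((2 * x.re : ℝ) : ℍ[ℝ]) * x - ((normSq x : ℝ) : ℍ[ℝ]) := by
  have h1 : x * star x = ((normSq x : ℝ) : ℍ[ℝ]) := Quaternion.self_mul_star x
  have h2 : x + star x = ((2 * x.re : ℝ) : ℍ[ℝ]) := Quaternion.self_add_star' x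
  have h3 : ((2 * x.re : ℝ) : ℍ[ℝ]) * x = x * x + x * star x := by
    rw [Quaternion.coe_commutes, ← h2, mul_add]
  rw [h3, h1, add_sub_cancel_right]

theorem phi_re (h : NonstandardInvolution φ) (x : ℍ[ℝ]) : (φ x).re = x.re := by
  by_contra hne
  have e1 := congrArg φ (sq_eq x)
  rw [h.mul, map_sub, h.mul, phi_coe h, phi_coe h, ← Quaternion.coe_commutes] at e1
  have e2 := sq_eq (φ x)
  rw [e1] at e2
  -- `φ x` is real
  have e3 : ((2 * x.re - 2 * (φ x).re : ℝ) : ℍ[ℝ]) * φ x = ((normSq x - normSq (φ x) : ℝ) : ℍ[ℝ]) := by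
    rw [Quaternion.coe_sub, Quaternion.coe_sub, sub_mul]
    have e5 := sub_eq_sub_iff_add_eq_add.1 e2
    rw [sub_eq_sub_iff_add_eq_add, e5, add_comm]
  have hc : (2 * x.re - 2 * (φ x).re : ℝ) ≠ 0 := fun h0 => hne (by linarith)
  have e4 : φ x = (((2 * x.re - 2 * (φ x).re)⁻¹ * (normSq x - normSq (φ x)) : ℝ) : ℍ[ℝ]) := by
    rw [Quaternion.coe_mul, ← e3, ← mul_assoc, ← Quaternion.coe_mul, inv_mul_cancel₀ hc]
    simp
  have e5 := h.invol x
  rw [e4, phi_coe h] at e5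
  apply hne
  rw [e4]
  conv_rhs => rw [← e5]

theorem phi_star (h : NonstandardInvolution φ) (x : ℍ[ℝ]) : φ (star x) = star (φ x) := by
  rw [Quaternion.star_eq_two_re_sub x, Quaternion.star_eq_two_re_sub (φ x), map_sub, phi_coe h,
    phi_re h]

/-- the commutant of `β` -/
theorem commutant {β : ℍ[ℝ]} (hre : β.re = 0) (hn : normSq β = 1) (z : ℍ[ℝ]) (hz : z * β = β * z) :
    ∃ s t : ℝ, z = (s : ℍ[ℝ]) + t • β := by
  refine ⟨z.re, z.imI * β.imI + z.imJ * β.imJ + z.imK * β.imK, ?_⟩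
  rw [Quaternion.normSq_def', hre] at hn
  have h1 := congrArg (fun q : ℍ[ℝ] => q.imI) hz
  have h2 := congrArg (fun q : ℍ[ℝ] => q.imJ) hz
  have h3 := congrArg (fun q : ℍ[ℝ] => q.imK) hz
  simp [hre] at h1 h2 h3
  ext
  · simp [hre]
  · simp
    linear_combination (-z.imI) * hn - (β.imK / 2) * h2 + (β.imJ / 2) * h3
  · simp
    linear_combination (-z.imJ) * hn - (β.imI / 2) * h3 + (β.imK / 2) * h1
  · simp
    linear_combination (-z.imK) * hn - (β.imJ / 2) * h1 + (β.imI / 2) * h2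

theorem beta_re (h : NonstandardInvolution φ) {β : ℍ[ℝ]} (hβ : φ β = -β) : β.re = 0 := by
  have h1 := phi_re h β
  rw [hβ] at h1
  simp at h1
  linarith

theorem beta_star (h : NonstandardInvolution φ) {β : ℍ[ℝ]} (hβ : φ β = -β) : star β = -β := by
  rw [Quaternion.star_eq_two_re_sub, beta_re h hβ]
  simp

theorem beta_sq (h : NonstandardInvolution φ) {β : ℍ[ℝ]} (hβ : φ β = -β) (hn : normSq β = 1) :
    β * β = -1 := by
  have h1 : β * star β = ((normSq β : ℝ) : ℍ[ℝ]) := Quaternion.self_mul_star β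
  rw [beta_star h hβ, hn, mul_neg, Quaternion.coe_one] at h1
  rw [← h1, neg_neg]

/-- the formula for a nonstandard involution -/
theorem phi_eq (h : NonstandardInvolution φ) {β : ℍ[ℝ]} (hβ : φ β = -β) (hn : normSq β = 1)
    (x : ℍ[ℝ]) : φ x = -(β * star x * β) := by
  have hbb := beta_sq h hβ hn
  have hsb := beta_star h hβ
  let ψ : ℍ[ℝ] → ℍ[ℝ] := fun x => star (φ x)
  have ψmul : ∀ x y, ψ (x * y) = ψ x * ψ y := fun x y => by
    simp only [ψ, h.mul, star_mul]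
  have ψadd : ∀ x y, ψ (x + y) = ψ x + ψ y := fun x y => by
    simp only [ψ, map_add, star_add]
  have ψneg : ∀ x, ψ (-x) = -ψ x := fun x => by
    simp only [ψ, map_neg, star_neg]
  have ψψ : ∀ x, ψ (ψ x) = x := fun x => by
    simp only [ψ, phi_star h, star_star, h.invol]
  have ψβ : ψ β = β := by
    simp only [ψ, hβ, star_neg, hsb, neg_neg]
  have ψcoe : ∀ r : ℝ, ψ (r : ℍ[ℝ]) = r := fun r => by
    simp only [ψ, phi_coe h, Quaternion.star_coe]
  -- the commutant of `β` is fixed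
  have ψcomm : ∀ z, z * β = β * z → ψ z = z := by
    intro z hz
    obtain ⟨s, t, rfl⟩ := commutant (beta_re h hβ) hn z hz
    have : t • β = (t : ℍ[ℝ]) * β := by ext <;> simp
    rw [this, ψadd, ψmul, ψcoe, ψcoe, ψβ]
  -- anticommuting part
  have hanti : ∀ x, ψ (x + β * x * β) = -(x + β * x * β) := by
    intro x
    set c := x + β * x * β with hc
    have hcβ : c * β = -(β * c) := by
      rw [hc]
      simp only [add_mul, mul_add, mul_assoc, hbb]
      rw [← mul_assoc β β, hbb]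
      simp
    by_contra hne
    have hp : c + ψ c ≠ 0 := fun h0 => hne (eq_neg_of_add_eq_zero_right h0)
    set p := c + ψ c with hpdef
    have hψp : ψ p = p := by rw [hpdef, ψadd, ψψ, add_comm]
    have hpβ : p * β = -(β * p) := by
      have h1 := congrArg ψ hcβ
      rw [ψmul, ψneg, ψmul, ψβ] at h1
      rw [hpdef, add_mul, mul_add, hcβ, h1, neg_add]
    apply h.ne_star.elim
    intro y hy
    apply hy
    have hall : ψ y = y := by
      have e : y = ((1 / 2 : ℝ) : ℍ[ℝ]) * (y + -(β * y * β)) +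
          p * (p⁻¹ * (((1 / 2 : ℝ) : ℍ[ℝ]) * (y + β * y * β))) := by
        rw [← mul_assoc p, mul_inv_cancel₀ hp, one_mul, ← mul_add]
        have : y + -(β * y * β) + (y + β * y * β) = ((2 : ℝ) : ℍ[ℝ]) * y := by
          have h2 : ((2 : ℝ) : ℍ[ℝ]) * y = y + y := by
            rw [show (2 : ℝ) = 1 + 1 by norm_num, Quaternion.coe_add, Quaternion.coe_one, add_mul,
              one_mul]
          rw [h2]
          abel
        rw [this, ← mul_assoc, ← Quaternion.coe_mul]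
        norm_num
      have c1 : (y + -(β * y * β)) * β = β * (y + -(β * y * β)) := by
        simp only [add_mul, mul_add, mul_assoc, hbb, neg_mul, mul_neg]
        rw [← mul_assoc β β, hbb]
        simp
        abel
      have c2 : (y + β * y * β) * β = -(β * (y + β * y * β)) := by
        simp only [add_mul, mul_add, mul_assoc, hbb]
        rw [← mul_assoc β β, hbb]
        simp
      have c3 : p⁻¹ * β = -(β * p⁻¹) := by
        have h3 : p⁻¹ * (p * β) * p⁻¹ = p⁻¹ * (-(β * p)) * p⁻¹ := by rw [hpβ]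
        rw [← mul_assoc, inv_mul_cancel₀ hp, one_mul, mul_neg, neg_mul, mul_assoc, mul_assoc,
          mul_inv_cancel₀ hp, mul_one] at h3
        rw [h3, neg_neg]
      rw [e, ψadd, ψmul, ψmul p, hψp, ψcoe, ψcomm _ c1, ψcomm (p⁻¹ * _)]
      rw [mul_assoc, mul_assoc, c2, mul_neg, mul_neg, ← mul_assoc (((1 / 2 : ℝ)) : ℍ[ℝ]) β,
        Quaternion.coe_commutes, mul_assoc β, ← mul_assoc p⁻¹ β, c3, neg_mul, neg_neg, mul_assoc]
    have := congrArg star hall
    simp only [ψ, star_star] at this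
    exact this
  have hcom : ψ (x + -(β * x * β)) = x + -(β * x * β) := by
    apply ψcomm
    simp only [add_mul, mul_add, mul_assoc, hbb, neg_mul, mul_neg]
    rw [← mul_assoc β β, hbb]
    simp
    abel
  have h1 := hanti x
  rw [ψadd] at h1 hcom
  rw [ψneg] at hcom
  have h2 : ψ x + ψ x = -(β * x * β) + -(β * x * β) := by
    have e1 : ψ x + ψ x = (ψ x + ψ (β * x * β)) + (ψ x + -ψ (β * x * β)) := by abel
    rw [e1, h1, hcom]
    abel
  have h3 : ψ x = -(β * x * β) := by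
    have h4 : (2 : ℝ) • ψ x = (2 : ℝ) • (-(β * x * β)) := by
      rw [two_smul, two_smul, h2]
    exact smul_right_injective ℍ[ℝ] (two_ne_zero (α := ℝ)) h4
  have h5 := congrArg star h3
  simp only [ψ, star_star, star_neg, star_mul, hsb] at h5
  rw [h5]
  simp [mul_assoc]

end involution

variable {n : ℕ} {φ : ℍ[ℝ] →ₗ[ℝ] ℍ[ℝ]}

/-- the linear map given by a matrix -/
def lin (A : Matrix (Fin n) (Fin n) ℍ[ℝ]) : Module.End ℍ[ℝ]ᵐᵒᵖ (Fin n → ℍ[ℝ]) where
  toFun x := A *ᵥ x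
  map_add' x y := Matrix.mulVec_add A x y
  map_smul' q x := Matrix.mulVec_smul A q x

instance finiteV : Module.Finite ℍ[ℝ]ᵐᵒᵖ (Fin n → ℍ[ℝ]) := by
  have : Module.Finite ℍ[ℝ]ᵐᵒᵖ ℍ[ℝ] := by
    refine ⟨⟨{1}, ?_⟩⟩
    rw [Submodule.eq_top_iff']
    intro x
    rw [Finset.coe_singleton, Submodule.mem_span_singleton]
    exact ⟨op x, by rw [op_smul_eq_mul, one_mul]⟩
  infer_instance

theorem phi_mulVec (h : NonstandardInvolution φ) (A : Matrix (Fin n) (Fin n) ℍ[ℝ])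
    (x : Fin n → ℍ[ℝ]) :
    (fun i => φ ((A *ᵥ x) i)) = (fun k => φ (x k)) ᵥ* (phiT φ A) := by
  ext1 i
  simp only [Matrix.mulVec, Matrix.vecMul, dotProduct, phiT, Matrix.of_apply, map_sum, h.mul]

theorem phi_pair (h : NonstandardInvolution φ) (G : Matrix (Fin n) (Fin n) ℍ[ℝ])
    (x y : Fin n → ℍ[ℝ]) : φ (pair φ G x y) = pair φ (phiT φ G) y x := by
  have h1 : φ (pair φ G x y) = ((fun i => φ ((G *ᵥ y) i)) ⬝ᵥ x) := by
    simp only [pair, dotProduct, map_sum, h.mul, h.invol]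
  rw [h1, phi_mulVec h, pair, Matrix.dotProduct_mulVec]

theorem pair_neg (G : Matrix (Fin n) (Fin n) ℍ[ℝ]) (x y : Fin n → ℍ[ℝ]) :
    pair φ (-G) x y = -pair φ G x y := by
  rw [pair, pair, Matrix.neg_mulVec, dotProduct_neg]

theorem qherm (h : NonstandardInvolution φ) {β : ℍ[ℝ]} (hβ : φ β = -β) (hn : normSq β = 1)
    (G : Matrix (Fin n) (Fin n) ℍ[ℝ]) (hG : phiT φ G = -G) :
    QHerm (fun x y : Fin n → ℍ[ℝ] => β⁻¹ * pair φ G x y) where
  add_right x y z := by
    simp only [pair, Matrix.mulVec_add, dotProduct_add, mul_add]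
  smul_right x y q := by
    simp only [pair, Matrix.mulVec_smul]
    simp only [dotProduct, Pi.smul_apply, op_smul_eq_mul, Finset.sum_mul, mul_assoc,
      Finset.mul_sum]
  symm x y := by
    have hb : β ≠ 0 := by
      intro h0
      rw [h0] at hn
      simp at hn
    have hbi : β⁻¹ = -β := by
      apply inv_eq_of_mul_eq_one_right
      rw [mul_neg, beta_sq h hβ hn, neg_neg]
    have h1 := phi_pair h G x y
    rw [hG, pair_neg, phi_eq h hβ hn] at h1
    rw [star_mul, hbi, star_neg, beta_star h hβ, neg_neg]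
    have h2 := neg_injective h1
    rw [← h2, neg_mul, ← mul_assoc, ← mul_assoc, beta_sq h hβ hn]
    simp

theorem skew (h : NonstandardInvolution φ) (β : ℍ[ℝ]) (H A : Matrix (Fin n) (Fin n) ℍ[ℝ])
    (hA : H * A = -(phiT φ A * H)) (x y : Fin n → ℍ[ℝ]) :
    β⁻¹ * pair φ (H * A) (A *ᵥ x) y = -(β⁻¹ * pair φ (H * A) x (A *ᵥ y)) := by
  have h1 : phiT φ A * (H * A) = -(H * A * A) := by
    rw [← mul_assoc, hA, neg_mul, neg_neg]
  rw [pair, phi_mulVec h, ← Matrix.dotProduct_mulVec, Matrix.mulVec_mulVec, h1,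
    Matrix.neg_mulVec, dotProduct_neg, mul_neg, pair, Matrix.mulVec_mulVec]

theorem phiT_mul (h : NonstandardInvolution φ) (X Y : Matrix (Fin n) (Fin n) ℍ[ℝ]) :
    phiT φ (X * Y) = phiT φ Y * phiT φ X := by
  ext1 i j
  simp only [phiT, Matrix.of_apply, Matrix.mul_apply, map_sum, h.mul]

theorem main (h : NonstandardInvolution φ) {β : ℍ[ℝ]} (hβ : φ β = -β) (hnβ : normSq β = 1)
    (G A : Matrix (Fin n) (Fin n) ℍ[ℝ]) (hG : phiT φ G = -G)
    (hA : ∀ x y, β⁻¹ * pair φ G (A *ᵥ x) y = -(β⁻¹ * pair φ G x (A *ᵥ y)))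
    (hker : ∀ x, G *ᵥ x = 0 → A *ᵥ x = 0)
    (N : Sub n) (hN : Invariant A N) (hneu : Neutral φ G N) (S : Set ℍ[ℝ]) (hS : IsCSet A S)
    (hNS : ∀ c ∈ eigenvalues A N, c.re ≠ 0 → c ∈ S) :
    ∃ L : Sub n, N ≤ L ∧ Invariant A L ∧ Maximal (Nonneg φ β G) L ∧
      {c | c ∈ eigenvalues A L ∧ c.re ≠ 0} = S := by
  have hβ0 : β ≠ 0 := by
    rintro rfl
    simp at hnβ
  have hn : ∀ M : Sub n, Nonneg φ β G M ↔
      QNonneg (fun x y : Fin n → ℍ[ℝ] => β⁻¹ * pair φ G x y) M := by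
    intro M
    constructor
    · intro h x hx
      obtain ⟨r, hr, he⟩ := h x hx
      simp only [he]
      rw [Quaternion.re_coe]
      exact hr
    · intro h' x hx
      exact ⟨_, h' x hx, (qherm h hβ hnβ G hG).real x⟩
  obtain ⟨L, h1, h2, h3, h4, h5⟩ := extend_cset (qherm h hβ hnβ G hG) (lin A) hA
    (by
      intro x hx
      apply hker
      have h0 : ∀ y, pair φ G y x = 0 := fun y => by
        have h6 := (qherm h hβ hnβ G hG).symm x y
        simp only [hx y, star_zero] at h6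
        exact (mul_eq_zero.1 h6).resolve_left (inv_ne_zero hβ0)
      ext1 i
      have h7 := h0 (Pi.single i 1)
      have h8 : (fun j => φ ((Pi.single i 1 : Fin n → ℍ[ℝ]) j)) = Pi.single i 1 := by
        ext1 j
        by_cases hij : j = i
        · subst hij
          rw [Pi.single_eq_same, phi_one h]
        · rw [Pi.single_eq_of_ne hij, map_zero]
      rw [pair, h8, single_one_dotProduct] at h7
      exact h7)
    N hN (fun x hx y hy => by simp only [hneu y hy x hx, mul_zero]) S hS.1 hS.2 hNS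
  exact ⟨L, h1, h2, ⟨(hn L).2 h3, fun M hM hM' => h4 M hM ((hn M).1 hM')⟩, h5⟩

/-- For every nonstandard involution `φ`, every `β` with `φ β = -β` and `|β| = 1`, every invertible
`φ`-hermitian `H`, every `(H, φ)`-skewsymmetric `A`, every `A`-invariant `(HA, φ)`-neutral subspace
`N` and every c-set `S` of `A` containing the eigenvalues of `A|N` with nonzero real part, there are
`A`-invariant subspaces containing `N` that are maximal `(HA, φ)`-nonnegative and maximal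
`(HA, φ)`-nonpositive, respectively, and for each of them the set of the eigenvalues of `A|L` with
nonzero real part equals `S`. -/
theorem result (φ : ℍ[ℝ] →ₗ[ℝ] ℍ[ℝ]) (hφ : NonstandardInvolution φ) (β : ℍ[ℝ])
    (hβ : φ β = -β) (hβ1 : ‖β‖ = 1) (n : ℕ) (H A : Matrix (Fin n) (Fin n) ℍ[ℝ])
    (hH0 : IsUnit H) (hH : phiT φ H = H) (hA : H * A = -(phiT φ A * H)) (N : Sub n)
    (hN : Invariant A N) (hneu : Neutral φ (H * A) N) (S : Set ℍ[ℝ]) (hS : IsCSet A S)
    (hNS : {c | c ∈ eigenvalues A N ∧ c.re ≠ 0} ⊆ S) :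
    (∃ L : Sub n, N ≤ L ∧ Invariant A L ∧ Maximal (Nonneg φ β (H * A)) L ∧
      {c | c ∈ eigenvalues A L ∧ c.re ≠ 0} = S) ∧
    (∃ L : Sub n, N ≤ L ∧ Invariant A L ∧ Maximal (Nonpos φ β (H * A)) L ∧
      {c | c ∈ eigenvalues A L ∧ c.re ≠ 0} = S) := by
  have hnβ : normSq β = 1 := by
    rw [Quaternion.normSq_eq_norm_mul_self, hβ1, mul_one]
  have hG : phiT φ (H * A) = -(H * A) := by
    rw [phiT_mul hφ, hH, hA, neg_neg]
  have hker : ∀ x, (H * A) *ᵥ x = 0 → A *ᵥ x = 0 := by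
    intro x hx
    obtain ⟨u, hu⟩ := hH0
    have h1 : (↑u⁻¹ : Matrix (Fin n) (Fin n) ℍ[ℝ]) *ᵥ ((H * A) *ᵥ x) = A *ᵥ x := by
      rw [Matrix.mulVec_mulVec, ← mul_assoc, ← hu, Units.inv_mul, one_mul]
    rw [← h1, hx, Matrix.mulVec_zero]
  have hNS' : ∀ c ∈ eigenvalues A N, c.re ≠ 0 → c ∈ S := fun c h1 h2 => hNS ⟨h1, h2⟩
  refine ⟨main hφ hβ hnβ (H * A) A hG (skew hφ β H A hA) hker N hN hneu S hS hNS', ?_⟩
  have hG' : phiT φ (-(H * A)) = -(-(H * A)) := by
    rw [← hG]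
    ext1 i j
    simp only [phiT, Matrix.of_apply, Matrix.neg_apply]
    rw [← map_neg, ← Matrix.neg_apply, ← hG]
    simp [phiT]
  obtain ⟨L, h1, h2, ⟨h3, h4⟩, h5⟩ := main hφ hβ hnβ (-(H * A)) A hG' (by
      intro x y
      rw [pair_neg, pair_neg, mul_neg, mul_neg, skew hφ β H A hA])
    (fun x hx => hker x (by rwa [Matrix.neg_mulVec, neg_eq_zero] at hx))
    N hN (by
      intro x hx y hy
      rw [pair_neg, hneu x hx y hy, neg_zero]) S hS hNS'
  have hn : ∀ M : Sub n, Nonneg φ β (-(H * A)) M ↔ Nonpos φ β (H * A) M := by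
    intro M
    constructor
    · intro h x hx
      obtain ⟨r, hr, he⟩ := h x hx
      refine ⟨-r, by linarith, ?_⟩
      rw [pair_neg, mul_neg] at he
      rw [Quaternion.coe_neg, ← he, neg_neg]
    · intro h x hx
      obtain ⟨r, hr, he⟩ := h x hx
      refine ⟨-r, by linarith, ?_⟩
      rw [pair_neg, mul_neg, he, Quaternion.coe_neg]
  exact ⟨L, h1, h2, ⟨(hn L).1 h3, fun M hM hM' => h4 M hM ((hn M).2 hM')⟩, h5⟩

end Pool.Agent.Results.MP_64d585_al.PrescribedSpectrum
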